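import Mathlib

set_option autoImplicit false

open scoped Pointwise

namespace Pool.Agent.Helper954_Tarski

/-- `G` has a paradoxical decomposition with at most `n` pieces: pairwise disjoint sets
`A 1, …, A k, B 1, …, B l` with `k + l ≤ n`, and group elements `g i`, `h j`, such that
`G = ⋃ i, g i * A i = ⋃ j, h j * B j`. The Tarski number of `G` is the least such `n`. -/
def HasParadox (G : Type*) [Group G] (n : ℕ) : Prop :=
  ∃ (k l : ℕ) (A : Fin k → Set G) (B : Fin l → Set G) (g : Fin k → G) (h : Fin l → G),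
    k + l ≤ n ∧
    Pairwise (fun i j => Disjoint (A i) (A j)) ∧
    Pairwise (fun i j => Disjoint (B i) (B j)) ∧
    (∀ i j, Disjoint (A i) (B j)) ∧
    (⋃ i, (fun x => g i * x) '' A i) = Set.univ ∧
    (⋃ j, (fun x => h j * x) '' B j) = Set.univ

lemma HasParadox.mono {G : Type*} [Group G] {m n : ℕ} (hmn : m ≤ n) (h : HasParadox G m) :
    HasParadox G n := by
  obtain ⟨k, l, A, B, g, h, hkl, h1⟩ := h
  exact ⟨k, l, A, B, g, h, hkl.trans hmn, h1⟩

section
variable {G : Type*} [Group G] [DecidableEq G]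

/-- elements `x` of `A` with `S x ⊆ A` -/
def core (S A : Finset G) : Finset G := A.filter (fun x => ∀ s ∈ S, s * x ∈ A)

/-- the (Hall) paradoxicality condition for a pair of finite sets containing `1` -/
def ParPair (S₁ S₂ : Finset G) : Prop :=
  ∀ A : Finset G, (core S₁ A).card + (core S₂ A).card ≤ A.card

lemma mem_core {S A : Finset G} (h1 : (1 : G) ∈ S) {x : G} :
    x ∈ core S A ↔ ∀ s ∈ S, s * x ∈ A := by
  unfold core
  rw [Finset.mem_filter]
  constructor
  · exact fun h => h.2
  · intro h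
    refine ⟨?_, h⟩
    simpa using h 1 h1

lemma core_subset (S A : Finset G) : core S A ⊆ A := Finset.filter_subset _ _

lemma core_empty (S : Finset G) : core S (∅ : Finset G) = ∅ := by
  simp [core]

lemma core_anti {S T : Finset G} (h : S ⊆ T) (A : Finset G) : core T A ⊆ core S A := by
  intro x hx
  unfold core at hx ⊢
  rw [Finset.mem_filter] at hx ⊢
  exact ⟨hx.1, fun s hs => hx.2 s (h hs)⟩

lemma core_mul {S T : Finset G} (hS : (1 : G) ∈ S) (hT : (1 : G) ∈ T) (A : Finset G) :
    core (S * T) A = core T (core S A) := by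
  have hST : (1 : G) ∈ S * T := by
    simpa using Finset.mul_mem_mul hS hT
  ext x
  rw [mem_core hST, mem_core hT]
  constructor
  · intro h t ht
    rw [mem_core hS]
    intro s hs
    have := h (s * t) (Finset.mul_mem_mul hs ht)
    rwa [mul_assoc] at this
  · intro h u hu
    obtain ⟨s, hs, t, ht, rfl⟩ := Finset.mem_mul.1 hu
    have := h t ht
    rw [mem_core hS] at this
    rw [mul_assoc]
    exact this s hs

/-- From a Hall pair to a decomposition. -/
lemma hasParadox_of_parPair {S₁ S₂ : Finset G} (h1 : (1 : G) ∈ S₁) (h2 : (1 : G) ∈ S₂)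
    (hp : ParPair S₁ S₂) {n : ℕ} (hn : S₁.card + S₂.card ≤ n) : HasParadox G n := by
  classical
  -- Hall
  let t : G ⊕ G → Finset G := Sum.elim (fun x => S₁.image (fun s => s * x))
    (fun x => S₂.image (fun s => s * x))
  have hall : ∀ s : Finset (G ⊕ G), s.card ≤ (s.biUnion t).card := by
    intro s
    set A := s.biUnion t with hA
    have hX1 : s.toLeft ⊆ core S₁ A := by
      intro x hx
      rw [mem_core h1]
      intro u hu
      rw [hA, Finset.mem_biUnion]
      refine ⟨Sum.inl x, Finset.mem_toLeft.1 hx, ?_⟩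
      simp only [t, Sum.elim_inl]
      exact Finset.mem_image_of_mem _ hu
    have hX2 : s.toRight ⊆ core S₂ A := by
      intro x hx
      rw [mem_core h2]
      intro u hu
      rw [hA, Finset.mem_biUnion]
      refine ⟨Sum.inr x, Finset.mem_toRight.1 hx, ?_⟩
      simp only [t, Sum.elim_inr]
      exact Finset.mem_image_of_mem _ hu
    calc s.card = s.toLeft.card + s.toRight.card := (Finset.card_toLeft_add_card_toRight).symm
      _ ≤ (core S₁ A).card + (core S₂ A).card :=
        Nat.add_le_add (Finset.card_le_card hX1) (Finset.card_le_card hX2)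
      _ ≤ A.card := hp A
  obtain ⟨f, hf, hft⟩ := (Finset.all_card_le_biUnion_card_iff_exists_injective t).1 hall
  have hf1 : ∀ x, ∃ s ∈ S₁, f (Sum.inl x) = s * x := by
    intro x
    have := hft (Sum.inl x)
    simp only [t, Sum.elim_inl, Finset.mem_image] at this
    obtain ⟨s, hs, h⟩ := this
    exact ⟨s, hs, h.symm⟩
  have hf2 : ∀ x, ∃ s ∈ S₂, f (Sum.inr x) = s * x := by
    intro x
    have := hft (Sum.inr x)
    simp only [t, Sum.elim_inr, Finset.mem_image] at this
    obtain ⟨s, hs, h⟩ := this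
    exact ⟨s, hs, h.symm⟩
  let e1 := S₁.equivFin
  let e2 := S₂.equivFin
  refine ⟨S₁.card, S₂.card,
    fun i => {y | ∃ x, f (Sum.inl x) = y ∧ y = ((e1.symm i : S₁) : G) * x},
    fun i => {y | ∃ x, f (Sum.inr x) = y ∧ y = ((e2.symm i : S₂) : G) * x},
    fun i => ((e1.symm i : S₁) : G)⁻¹, fun i => ((e2.symm i : S₂) : G)⁻¹, hn, ?_, ?_, ?_, ?_, ?_⟩
  · intro i j hij
    rw [Set.disjoint_left]
    rintro y ⟨x, hx, hy⟩ ⟨x', hx', hy'⟩
    apply hij
    have hxx : x = x' := by
      have := hf (hx.trans hx'.symm)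
      exact Sum.inl_injective this
    subst hxx
    have := mul_right_cancel (hy.symm.trans hy')
    exact e1.symm.injective (Subtype.ext this)
  · intro i j hij
    rw [Set.disjoint_left]
    rintro y ⟨x, hx, hy⟩ ⟨x', hx', hy'⟩
    apply hij
    have hxx : x = x' := by
      have := hf (hx.trans hx'.symm)
      exact Sum.inr_injective this
    subst hxx
    have := mul_right_cancel (hy.symm.trans hy')
    exact e2.symm.injective (Subtype.ext this)
  · intro i j
    rw [Set.disjoint_left]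
    rintro y ⟨x, hx, hy⟩ ⟨x', hx', hy'⟩
    have := hf (hx.trans hx'.symm)
    exact absurd this (by simp)
  · rw [Set.eq_univ_iff_forall]
    intro x
    obtain ⟨s, hs, h⟩ := hf1 x
    rw [Set.mem_iUnion]
    refine ⟨e1 ⟨s, hs⟩, s * x, ⟨x, ?_, ?_⟩, ?_⟩
    · exact h
    · simp
    · simp
  · rw [Set.eq_univ_iff_forall]
    intro x
    obtain ⟨s, hs, h⟩ := hf2 x
    rw [Set.mem_iUnion]
    refine ⟨e2 ⟨s, hs⟩, s * x, ⟨x, ?_, ?_⟩, ?_⟩
    · exact h
    · simp
    · simp

/-- From a decomposition to a Hall pair. -/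
lemma HasParadox.exists_parPair {n : ℕ} (h : HasParadox G n) :
    ∃ S₁ S₂ : Finset G, (1 : G) ∈ S₁ ∧ (1 : G) ∈ S₂ ∧ S₁.card + S₂.card ≤ n ∧ ParPair S₁ S₂ := by
  classical
  obtain ⟨k, l, A, B, g, h, hkl, hA, hB, hAB, hgA, hhB⟩ := h
  have h1 : ∀ x : G, ∃ i, (g i)⁻¹ * x ∈ A i := by
    intro x
    have := Set.eq_univ_iff_forall.1 hgA x
    rw [Set.mem_iUnion] at this
    obtain ⟨i, y, hy, hyx⟩ := this
    refine ⟨i, ?_⟩
    simp only at hyx
    rw [← hyx]
    simpa using hy
  have h2 : ∀ x : G, ∃ i, (h i)⁻¹ * x ∈ B i := by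
    intro x
    have := Set.eq_univ_iff_forall.1 hhB x
    rw [Set.mem_iUnion] at this
    obtain ⟨i, y, hy, hyx⟩ := this
    refine ⟨i, ?_⟩
    simp only at hyx
    rw [← hyx]
    simpa using hy
  choose c hc using h1
  choose d hd using h2
  let g₀ : G := g (c 1)
  let h₀ : G := h (d 1)
  let S₁ : Finset G := Finset.univ.image (fun i => (g i)⁻¹ * g₀)
  let S₂ : Finset G := Finset.univ.image (fun i => (h i)⁻¹ * h₀)
  have h1S : (1 : G) ∈ S₁ := by
    refine Finset.mem_image.2 ⟨c 1, Finset.mem_univ _, ?_⟩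
    simp [g₀]
  have h2S : (1 : G) ∈ S₂ := by
    refine Finset.mem_image.2 ⟨d 1, Finset.mem_univ _, ?_⟩
    simp [h₀]
  have hc1 : S₁.card ≤ k := by
    refine Finset.card_image_le.trans ?_
    simp
  have hc2 : S₂.card ≤ l := by
    refine Finset.card_image_le.trans ?_
    simp
  refine ⟨S₁, S₂, h1S, h2S, (Nat.add_le_add hc1 hc2).trans hkl, ?_⟩
  intro X
  let φ : G → G := fun x => (g (c (g₀ * x)))⁻¹ * (g₀ * x)
  let ψ : G → G := fun x => (h (d (h₀ * x)))⁻¹ * (h₀ * x)
  have hφ : ∀ x, φ x ∈ A (c (g₀ * x)) := fun x => hc _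
  have hψ : ∀ x, ψ x ∈ B (d (h₀ * x)) := fun x => hd _
  have hφi : Function.Injective φ := by
    intro x y hxy
    have e : c (g₀ * x) = c (g₀ * y) := by
      by_contra hne
      exact Set.disjoint_left.1 (hA hne) (hφ x) (hxy ▸ hφ y)
    have : (g (c (g₀ * x)))⁻¹ * (g₀ * x) = (g (c (g₀ * y)))⁻¹ * (g₀ * y) := hxy
    rw [e] at this
    exact mul_left_cancel (mul_left_cancel this)
  have hψi : Function.Injective ψ := by
    intro x y hxy
    have e : d (h₀ * x) = d (h₀ * y) := by
      by_contra hne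
      exact Set.disjoint_left.1 (hB hne) (hψ x) (hxy ▸ hψ y)
    have : (h (d (h₀ * x)))⁻¹ * (h₀ * x) = (h (d (h₀ * y)))⁻¹ * (h₀ * y) := hxy
    rw [e] at this
    exact mul_left_cancel (mul_left_cancel this)
  have hdisj : Disjoint ((core S₁ X).image φ) ((core S₂ X).image ψ) := by
    rw [Finset.disjoint_left]
    intro z hz hz'
    obtain ⟨x, _, rfl⟩ := Finset.mem_image.1 hz
    obtain ⟨y, _, hy⟩ := Finset.mem_image.1 hz'
    have h3 := hψ y
    rw [hy] at h3
    exact Set.disjoint_left.1 (hAB _ _) (hφ x) h3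
  have hsub : (core S₁ X).image φ ∪ (core S₂ X).image ψ ⊆ X := by
    intro z hz
    rcases Finset.mem_union.1 hz with hz | hz
    · obtain ⟨x, hx, rfl⟩ := Finset.mem_image.1 hz
      rw [mem_core h1S] at hx
      have := hx ((g (c (g₀ * x)))⁻¹ * g₀)
        (Finset.mem_image.2 ⟨_, Finset.mem_univ _, rfl⟩)
      rwa [mul_assoc] at this
    · obtain ⟨x, hx, rfl⟩ := Finset.mem_image.1 hz
      rw [mem_core h2S] at hx
      have := hx ((h (d (h₀ * x)))⁻¹ * h₀)
        (Finset.mem_image.2 ⟨_, Finset.mem_univ _, rfl⟩)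
      rwa [mul_assoc] at this
  calc (core S₁ X).card + (core S₂ X).card
      = ((core S₁ X).image φ).card + ((core S₂ X).image ψ).card := by
        rw [Finset.card_image_of_injective _ hφi, Finset.card_image_of_injective _ hψi]
    _ = ((core S₁ X).image φ ∪ (core S₂ X).image ψ).card :=
        (Finset.card_union_of_disjoint hdisj).symm
    _ ≤ X.card := Finset.card_le_card hsub

end

end Pool.Agent.Helper954_Tarski
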