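import Pool.Agent.Helper954_Tarski.Basic

set_option autoImplicit false

open scoped Pointwise

namespace Pool.Agent.Helper954_Tarski

section pi
variable {ι : Type*} [Fintype ι] [DecidableEq ι] {H : ι → Type*} [∀ i, Group (H i)]
  [∀ i, DecidableEq (H i)]

/-- the projection of a finite subset of the product -/
def proj (i : ι) (S : Finset (∀ i, H i)) : Finset (H i) := S.image (fun s => s i)

lemma one_mem_proj {S : Finset (∀ i, H i)} (h : (1 : ∀ i, H i) ∈ S) (i : ι) :
    (1 : H i) ∈ proj i S := Finset.mem_image.2 ⟨1, h, rfl⟩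

lemma core_pi {S : Finset (∀ i, H i)} (hS : (1 : ∀ i, H i) ∈ S) (A : ∀ i, Finset (H i)) :
    core S (Fintype.piFinset A) = Fintype.piFinset (fun i => core (proj i S) (A i)) := by
  ext x
  rw [mem_core hS, Fintype.mem_piFinset]
  constructor
  · intro h i
    rw [mem_core (one_mem_proj hS i)]
    intro s hs
    obtain ⟨u, hu, rfl⟩ := Finset.mem_image.1 hs
    exact Fintype.mem_piFinset.1 (h u hu) i
  · intro h s hs
    rw [Fintype.mem_piFinset]
    intro i
    have := h i
    rw [mem_core (one_mem_proj hS i)] at this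
    exact this (s i) (Finset.mem_image.2 ⟨s, hs, rfl⟩)

/-- number of points counted twice -/
def cc {G : Type*} [Group G] [DecidableEq G] (S₁ S₂ A : Finset G) : ℕ :=
  (core S₁ A).card + (core S₂ A).card

lemma prod_update_eq (i₀ : ι) (f : ∀ i, Finset (H i) → ℕ) (B : ∀ i, Finset (H i))
    (A : Finset (H i₀)) :
    ∏ i, f i (Function.update B i₀ A i) = f i₀ A * ∏ i ∈ Finset.univ.erase i₀, f i (B i) := by
  rw [← Finset.mul_prod_erase Finset.univ _ (Finset.mem_univ i₀)]
  congr 1
  · simp
  · apply Finset.prod_congr rfl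
    intro i hi
    rw [Function.update_of_ne (Finset.ne_of_mem_erase hi)]

lemma key_ineq {S₁ S₂ : Finset (∀ i, H i)} (h1 : (1 : ∀ i, H i) ∈ S₁)
    (h2 : (1 : ∀ i, H i) ∈ S₂) (hp : ParPair S₁ S₂) (i₀ : ι) (A : Finset (H i₀))
    (B : ∀ i, Finset (H i)) :
    cc (proj i₀ S₁) (proj i₀ S₂) A *
        ∏ i ∈ Finset.univ.erase i₀, (core (proj i (S₁ ∪ S₂)) (B i)).card ≤
      A.card * ∏ i ∈ Finset.univ.erase i₀, (B i).card := by
  have key := hp (Fintype.piFinset (Function.update B i₀ A))
  rw [core_pi h1, core_pi h2, Fintype.card_piFinset, Fintype.card_piFinset,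
    Fintype.card_piFinset] at key
  have e1 := prod_update_eq i₀ (fun i X => (core (proj i S₁) X).card) B A
  have e2 := prod_update_eq i₀ (fun i X => (core (proj i S₂) X).card) B A
  have e3 := prod_update_eq i₀ (fun i (X : Finset (H i)) => X.card) B A
  rw [e1, e2, e3] at key
  refine le_trans ?_ key
  unfold cc
  rw [add_mul]
  have l1 : ∏ i ∈ Finset.univ.erase i₀, (core (proj i (S₁ ∪ S₂)) (B i)).card ≤
      ∏ i ∈ Finset.univ.erase i₀, (core (proj i S₁) (B i)).card := by
    apply Finset.prod_le_prod' 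
    intro i _
    exact Finset.card_le_card (core_anti (Finset.image_subset_image Finset.subset_union_left) _)
  have l2 : ∏ i ∈ Finset.univ.erase i₀, (core (proj i (S₁ ∪ S₂)) (B i)).card ≤
      ∏ i ∈ Finset.univ.erase i₀, (core (proj i S₂) (B i)).card := by
    apply Finset.prod_le_prod' 
    intro i _
    exact Finset.card_le_card (core_anti (Finset.image_subset_image Finset.subset_union_right) _)
  exact Nat.add_le_add (Nat.mul_le_mul_left _ l1) (Nat.mul_le_mul_left _ l2)

lemma prod_prod_erase (f : ι → ℕ) :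
    ∏ i, ∏ l ∈ Finset.univ.erase i, f l = ∏ l, f l ^ (Fintype.card ι - 1) := by
  rw [Finset.prod_comm' (t' := Finset.univ) (s' := fun l => Finset.univ.erase l)]
  · apply Finset.prod_congr rfl
    intro l _
    rw [Finset.prod_const, Finset.card_erase_of_mem (Finset.mem_univ l), Finset.card_univ]
  · intro x y
    simp [ne_comm]

/-- there is a good factor -/
lemma exists_good [Nonempty ι] {S₁ S₂ : Finset (∀ i, H i)} (h1 : (1 : ∀ i, H i) ∈ S₁)
    (h2 : (1 : ∀ i, H i) ∈ S₂) (hp : ParPair S₁ S₂) :
    ∃ i₀ : ι, ∀ A B : Finset (H i₀),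
      cc (proj i₀ S₁) (proj i₀ S₂) A *
        (core (proj i₀ (S₁ ∪ S₂)) B).card ^ (Fintype.card ι - 1) ≤
      A.card * B.card ^ (Fintype.card ι - 1) := by
  by_contra hcon
  push Not at hcon
  choose A B hAB using hcon
  set k := Fintype.card ι - 1 with hk
  have hall : ∏ i, (cc (proj i S₁) (proj i S₂) (A i) *
      ∏ l ∈ Finset.univ.erase i, (core (proj l (S₁ ∪ S₂)) (B l)).card) ≤
      ∏ i, ((A i).card * ∏ l ∈ Finset.univ.erase i, (B l).card) :=
    Finset.prod_le_prod' (fun i _ => key_ineq h1 h2 hp i (A i) B)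
  rw [Finset.prod_mul_distrib, Finset.prod_mul_distrib, prod_prod_erase, prod_prod_erase,
    ← Finset.prod_mul_distrib, ← Finset.prod_mul_distrib] at hall
  have hlt : ∏ i, ((A i).card * (B i).card ^ k) <
      ∏ i, (cc (proj i S₁) (proj i S₂) (A i) *
        (core (proj i (S₁ ∪ S₂)) (B i)).card ^ k) := by
    apply Finset.prod_lt_prod_of_nonempty
    · intro i _
      have hi := hAB i
      have hpos : 0 < cc (proj i S₁) (proj i S₂) (A i) *
        (core (proj i (S₁ ∪ S₂)) (B i)).card ^ k := lt_of_le_of_lt (Nat.zero_le _) hi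
      have hA : (A i).card ≠ 0 := by
        intro h0
        rw [Finset.card_eq_zero] at h0
        rw [h0] at hpos
        simp [cc, core_empty] at hpos
      have hB : (B i).card ^ k ≠ 0 := by
        intro h0
        have hc : (core (proj i (S₁ ∪ S₂)) (B i)).card ^ k ≤ (B i).card ^ k :=
          Nat.pow_le_pow_left (Finset.card_le_card (core_subset _ _)) k
        rw [h0] at hc
        have : (core (proj i (S₁ ∪ S₂)) (B i)).card ^ k = 0 := Nat.le_zero.1 hc
        rw [this] at hpos
        simp at hpos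
      positivity
    · intro i _
      exact hAB i
    · exact Finset.univ_nonempty
  exact absurd (lt_of_lt_of_le hlt hall) (lt_irrefl _)

end pi

section single
variable {G : Type*} [Group G] [DecidableEq G]

lemma one_mem_iter {S T : Finset G} (hS : (1 : G) ∈ S) (hT : (1 : G) ∈ T) (k : ℕ) :
    (1 : G) ∈ (S * ·)^[k] T := by
  induction k with
  | zero => simpa using hT
  | succ k ih =>
    rw [Function.iterate_succ_apply']
    simpa using Finset.mul_mem_mul hS ih

lemma core_iter {S T : Finset G} (hS : (1 : G) ∈ S) (hT : (1 : G) ∈ T) (k : ℕ) (A : Finset G) :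
    core ((S * ·)^[k] T) A = core T ((core S)^[k] A) := by
  induction k generalizing A with
  | zero => rfl
  | succ k ih =>
    rw [Function.iterate_succ_apply', core_mul hS (one_mem_iter hS hT k), ih,
      Function.iterate_succ_apply]

/-- the chain lemma -/
lemma chain {S S₁ S₂ : Finset G} (k : ℕ)
    (h : ∀ A B : Finset G, cc S₁ S₂ A * (core S B).card ^ k ≤ A.card * B.card ^ k)
    (A : Finset G) : cc S₁ S₂ ((core S)^[k] A) ≤ A.card := by
  set B : ℕ → Finset G := fun l => (core S)^[l] A with hB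
  have hsucc : ∀ l, B (l + 1) = core S (B l) := fun l => Function.iterate_succ_apply' _ _ _
  have hmono : ∀ l, (B (l+1)).card ≤ (B l).card := by
    intro l
    rw [hsucc]
    exact Finset.card_le_card (core_subset _ _)
  have hanti : Antitone (fun l => (B l).card) := antitone_nat_of_succ_le hmono
  change cc S₁ S₂ (B k) ≤ (B 0).card
  rcases Nat.eq_zero_or_pos (cc S₁ S₂ (B k)) with h0 | hpos
  · omega
  have hBk : (B k).card ≠ 0 := by
    intro h0
    rw [Finset.card_eq_zero] at h0
    rw [h0] at hpos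
    simp [cc, core_empty] at hpos
  have hBl : ∀ l ≤ k, 0 < (B l).card := by
    intro l hl
    have := hanti hl
    simp only at this
    omega
  rcases Nat.eq_zero_or_pos k with hk0 | hkpos
  · have := h (B k) (B k)
    rw [hk0] at this ⊢
    simpa using this
  -- ratio
  obtain ⟨m, hm, hmax⟩ := Finset.exists_max_image (Finset.range k)
    (fun l => ((B (l+1)).card : ℚ) / (B l).card) ⟨0, Finset.mem_range.2 hkpos⟩
  have hmk : m < k := Finset.mem_range.1 hm
  have hprod : ∏ l ∈ Finset.range k, (((B (l+1)).card : ℚ) / (B l).card)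
      = (B k).card / (B 0).card := by
    have : ∀ j ≤ k, ∏ l ∈ Finset.range j, (((B (l+1)).card : ℚ) / (B l).card)
      = (B j).card / (B 0).card := by
      intro j
      induction j with
      | zero =>
        intro _
        have := hBl 0 (Nat.zero_le _)
        have h' : ((B 0).card : ℚ) ≠ 0 := by positivity
        simp [div_self h']
      | succ j ih =>
        intro hj
        rw [Finset.prod_range_succ, ih (by omega)]
        have a0 := hBl 0 (Nat.zero_le _)
        have aj := hBl j (by omega)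
        have h0' : ((B 0).card : ℚ) ≠ 0 := by positivity
        have hj' : ((B j).card : ℚ) ≠ 0 := by positivity
        field_simp
    exact this k le_rfl
  have hle : ((B k).card : ℚ) / (B 0).card ≤ (((B (m+1)).card : ℚ) / (B m).card) ^ k := by
    rw [← hprod]
    calc ∏ l ∈ Finset.range k, (((B (l+1)).card : ℚ) / (B l).card)
        ≤ ∏ l ∈ Finset.range k, (((B (m+1)).card : ℚ) / (B m).card) := by
          apply Finset.prod_le_prod
          · intro i _; positivity
          · intro i hi; exact hmax i hi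
      _ = _ := by rw [Finset.prod_const, Finset.card_range]
  have hh := h (B k) (B m)
  rw [← hsucc] at hh
  have hBm := hBl m hmk.le
  have hB0 := hBl 0 (Nat.zero_le _)
  have hhQ : (cc S₁ S₂ (B k) : ℚ) * ((B (m+1)).card : ℚ) ^ k ≤ (B k).card * ((B m).card : ℚ) ^ k := by
    exact_mod_cast hh
  have hdiv : (cc S₁ S₂ (B k) : ℚ) * (((B (m+1)).card : ℚ) / (B m).card) ^ k ≤ (B k).card := by
    rw [div_pow, ← mul_div_assoc, div_le_iff₀ (by positivity)]
    exact hhQ
  have h3 : (cc S₁ S₂ (B k) : ℚ) * (((B k).card : ℚ) / (B 0).card) ≤ (B k).card :=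
    (mul_le_mul_of_nonneg_left hle (by positivity)).trans hdiv
  have hBkpos : (0 : ℚ) < (B k).card := by
    have := hBl k le_rfl
    positivity
  have hB0pos : (0 : ℚ) < (B 0).card := by positivity
  rw [← mul_div_assoc, div_le_iff₀ hB0pos] at h3
  have h4 : (cc S₁ S₂ (B k) : ℚ) ≤ (B 0).card := by
    nlinarith
  exact_mod_cast h4

lemma parPair_iter {S S₁ S₂ : Finset G} (hS : (1 : G) ∈ S) (h1 : (1 : G) ∈ S₁)
    (h2 : (1 : G) ∈ S₂) (k : ℕ)
    (h : ∀ A B : Finset G, cc S₁ S₂ A * (core S B).card ^ k ≤ A.card * B.card ^ k) :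
    ParPair ((S * ·)^[k] S₁) ((S * ·)^[k] S₂) := by
  intro A
  rw [core_iter hS h1, core_iter hS h2]
  exact chain k h A

lemma subset_mul_left {S T : Finset G} (hS : (1 : G) ∈ S) : T ⊆ S * T := by
  intro x hx
  simpa using Finset.mul_mem_mul hS hx

lemma iter_eq {S T : Finset G} (hT : (1 : G) ∈ T) (hTS : T ⊆ S) (k : ℕ) :
    (S * ·)^[k+1] T = insert 1 ((S.erase 1) * (S * ·)^[k] T) := by
  have hS : (1 : G) ∈ S := hTS hT
  have hincl : ∀ k, (S * ·)^[k] T ⊆ (S * ·)^[k+1] T := by
    intro k
    rw [Function.iterate_succ_apply']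
    exact subset_mul_left hS
  have hsub : ∀ k, (S * ·)^[k] T ⊆ insert 1 ((S.erase 1) * (S * ·)^[k] T) := by
    intro k
    induction k with
    | zero =>
      intro x hx
      simp only [Function.iterate_zero, id_eq] at hx ⊢
      by_cases h : x = 1
      · simp [h]
      · rw [Finset.mem_insert]
        right
        have := Finset.mul_mem_mul (Finset.mem_erase.2 ⟨h, hTS hx⟩) hT
        simpa using this
    | succ k ih =>
      intro x hx
      rw [Function.iterate_succ_apply'] at hx
      obtain ⟨s, hs, y, hy, rfl⟩ := Finset.mem_mul.1 hx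
      by_cases h : s = 1
      · subst h
        rw [one_mul]
        have := ih hy
        rw [Finset.mem_insert] at this ⊢
        rcases this with h' | h'
        · exact Or.inl h'
        · right
          exact Finset.mul_subset_mul_left (hincl k) h'
      · rw [Finset.mem_insert]
        right
        exact Finset.mul_mem_mul (Finset.mem_erase.2 ⟨h, hs⟩) (hincl k hy)
  apply Finset.Subset.antisymm
  · intro x hx
    rw [Function.iterate_succ_apply'] at hx
    obtain ⟨s, hs, y, hy, rfl⟩ := Finset.mem_mul.1 hx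
    by_cases h : s = 1
    · subst h
      rw [one_mul]
      exact hsub k hy
    · rw [Finset.mem_insert]
      right
      exact Finset.mul_mem_mul (Finset.mem_erase.2 ⟨h, hs⟩) hy
  · intro x hx
    rw [Finset.mem_insert] at hx
    rcases hx with rfl | hx
    · exact one_mem_iter hS hT (k+1)
    · rw [Function.iterate_succ_apply']
      exact Finset.mul_subset_mul_right (Finset.erase_subset _ _) hx

lemma card_iter_succ {S T : Finset G} (hT : (1 : G) ∈ T) (hTS : T ⊆ S) (k : ℕ) :
    ((S * ·)^[k+1] T).card ≤ 1 + (S.card - 1) * ((S * ·)^[k] T).card := by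
  rw [iter_eq hT hTS]
  refine (Finset.card_insert_le _ _).trans ?_
  have h1 := Finset.card_mul_le (s := S.erase 1) (t := (S * ·)^[k] T)
  rw [Finset.card_erase_of_mem (hTS hT)] at h1
  omega

lemma card_iter_add {S₁ S₂ : Finset G} {m : ℕ} (h1 : (1 : G) ∈ S₁) (h2 : (1 : G) ∈ S₂)
    {S : Finset G} (hS : S = S₁ ∪ S₂) (hm : S.card - 1 ≤ m) (hn : S₁.card + S₂.card ≤ m + 2)
    (k : ℕ) :
    ((S * ·)^[k] S₁).card + ((S * ·)^[k] S₂).card ≤
      2 * ∑ l ∈ Finset.range (k+1), m ^ l + m ^ (k + 1) := by
  induction k with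
  | zero => simpa [add_comm] using hn
  | succ k ih =>
    have a1 := card_iter_succ (S := S) h1 (hS ▸ Finset.subset_union_left) k
    have a2 := card_iter_succ (S := S) h2 (hS ▸ Finset.subset_union_right) k
    have b1 : (S.card - 1) * ((S * ·)^[k] S₁).card ≤ m * ((S * ·)^[k] S₁).card :=
      Nat.mul_le_mul_right _ hm
    have b2 : (S.card - 1) * ((S * ·)^[k] S₂).card ≤ m * ((S * ·)^[k] S₂).card :=
      Nat.mul_le_mul_right _ hm
    have e : ∑ l ∈ Finset.range (k+1+1), m ^ l = 1 + m * ∑ l ∈ Finset.range (k+1), m ^ l := by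
      rw [Finset.sum_range_succ', Finset.mul_sum]
      simp only [pow_succ', pow_zero]
      ring
    rw [e]
    have c : m * (((S * ·)^[k] S₁).card + ((S * ·)^[k] S₂).card) ≤
        m * (2 * ∑ l ∈ Finset.range (k+1), m ^ l + m ^ (k + 1)) := Nat.mul_le_mul_left _ ih
    calc ((S * ·)^[k+1] S₁).card + ((S * ·)^[k+1] S₂).card
        ≤ (1 + m * ((S * ·)^[k] S₁).card) + (1 + m * ((S * ·)^[k] S₂).card) :=
          Nat.add_le_add (a1.trans (Nat.add_le_add_left b1 _)) (a2.trans (Nat.add_le_add_left b2 _))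
      _ = 2 + m * (((S * ·)^[k] S₁).card + ((S * ·)^[k] S₂).card) := by ring
      _ ≤ 2 + m * (2 * ∑ l ∈ Finset.range (k+1), m ^ l + m ^ (k + 1)) := Nat.add_le_add_left c _
      _ = 2 * (1 + m * ∑ l ∈ Finset.range (k+1), m ^ l) + m ^ (k + 1 + 1) := by ring

end single

/-- main theorem for finite families of groups -/
theorem exists_hasParadox_factor {ι : Type*} [Fintype ι] (H : ι → Type*) [∀ i, Group (H i)]
    (n : ℕ) (h : HasParadox (∀ i, H i) n) :
    ∃ i, HasParadox (H i)
      (2 * ∑ l ∈ Finset.range (Fintype.card ι), (n - 2) ^ l + (n - 2) ^ Fintype.card ι) := by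
  classical
  obtain ⟨S₁, S₂, h1, h2, hn, hp⟩ := h.exists_parPair
  rcases isEmpty_or_nonempty ι with hι | hι
  · -- trivial group: impossible
    exfalso
    have := hp Finset.univ
    have e1 : core S₁ (Finset.univ : Finset (∀ i, H i)) = Finset.univ := by
      ext x
      rw [mem_core h1]
      exact ⟨fun _ => Finset.mem_univ _, fun _ _ _ => Finset.mem_univ _⟩
    have e2 : core S₂ (Finset.univ : Finset (∀ i, H i)) = Finset.univ := by
      ext x
      rw [mem_core h2]
      exact ⟨fun _ => Finset.mem_univ _, fun _ _ _ => Finset.mem_univ _⟩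
    rw [e1, e2] at this
    simp at this
  obtain ⟨i, hi⟩ := exists_good h1 h2 hp
  refine ⟨i, ?_⟩
  have hpos : 0 < Fintype.card ι := Fintype.card_pos
  set S : Finset (H i) := proj i (S₁ ∪ S₂) with hSdef
  have hS : S = proj i S₁ ∪ proj i S₂ := Finset.image_union _ _
  have h1' : (1 : H i) ∈ proj i S₁ := one_mem_proj h1 i
  have h2' : (1 : H i) ∈ proj i S₂ := one_mem_proj h2 i
  have hSone : (1 : H i) ∈ S := hS ▸ Finset.mem_union_left _ h1'
  have hpar := parPair_iter hSone h1' h2' (Fintype.card ι - 1) hi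
  have hc1 : (proj i S₁).card ≤ S₁.card := Finset.card_image_le
  have hc2 : (proj i S₂).card ≤ S₂.card := Finset.card_image_le
  have hq1 : 0 < S₁.card := Finset.card_pos.2 ⟨1, h1⟩
  have hq2 : 0 < S₂.card := Finset.card_pos.2 ⟨1, h2⟩
  have hcap : 0 < (proj i S₁ ∩ proj i S₂).card :=
    Finset.card_pos.2 ⟨1, Finset.mem_inter.2 ⟨h1', h2'⟩⟩
  have hcu : S.card + (proj i S₁ ∩ proj i S₂).card = (proj i S₁).card + (proj i S₂).card := by
    rw [hS]; exact Finset.card_union_add_card_inter _ _
  have hm : S.card - 1 ≤ n - 2 := by omega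
  have hn' : (proj i S₁).card + (proj i S₂).card ≤ (n - 2) + 2 := by omega
  have hcard := card_iter_add h1' h2' hS hm hn' (Fintype.card ι - 1)
  rw [Nat.sub_add_cancel hpos] at hcard
  exact hasParadox_of_parPair (one_mem_iter hSone h1' _) (one_mem_iter hSone h2' _) hpar hcard

end Pool.Agent.Helper954_Tarski
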